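import Mathlib

/-!
# Two elementary lemmas on groups in which many products square to one
-/

namespace Pool.Agent.Lib.MP_afab79_al

open Subgroup

theorem inv_of_sq {G : Type*} [Group G] {x : G} (hx : x ^ 2 = 1) : x⁻¹ = x := by
  rw [pow_two] at hx
  exact inv_eq_of_mul_eq_one_left hx

/-- Two involutions whose product squares to one commute. -/
theorem commute_of_sq {G : Type*} [Group G] {x y : G} (hx : x ^ 2 = 1) (hy : y ^ 2 = 1)
    (hxy : (x * y) ^ 2 = 1) : Commute x y := by
  have h1 := inv_of_sq hx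
  have h2 := inv_of_sq hy
  have h3 := inv_of_sq hxy
  rw [mul_inv_rev, h1, h2] at h3
  exact h3.symm

theorem commute_conj {G : Type*} [Group G] {x y : G} (g : G) (h : Commute x y) :
    Commute (g * x * g⁻¹) (g * y * g⁻¹) := by
  have := h.eq
  show _ = _
  calc g * x * g⁻¹ * (g * y * g⁻¹) = g * (x * y) * g⁻¹ := by group
    _ = g * (y * x) * g⁻¹ := by rw [this]
    _ = g * y * g⁻¹ * (g * x * g⁻¹) := by group

/-- A subgroup generated by pairwise commuting involutions has exponent two. -/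
theorem closure_sq_one {G : Type*} [Group G] (T : Set G)
    (hT : ∀ x ∈ T, ∀ y ∈ T, Commute x y) (h2 : ∀ x ∈ T, x ^ 2 = 1) :
    ∀ x ∈ closure T, x ^ 2 = 1 := by
  have h1 : ∀ x ∈ closure T, ∀ y ∈ T, Commute x y := by
    intro x hx y hy
    induction hx using closure_induction with
    | mem x hx => exact hT x hx y hy
    | one => exact Commute.one_left y
    | mul a b _ _ ha hb => exact ha.mul_left hb
    | inv a _ ha => exact ha.inv_left
  have h3 : ∀ x ∈ closure T, ∀ y ∈ closure T, Commute x y := by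
    intro x hx y hy
    induction hy using closure_induction with
    | mem y hy => exact h1 x hx y hy
    | one => exact Commute.one_right x
    | mul a b _ _ ha hb => exact ha.mul_right hb
    | inv a _ ha => exact ha.inv_right
  intro x hx
  induction hx using closure_induction with
  | mem x hx => exact h2 x hx
  | one => exact one_pow 2
  | mul a b ha hb ha' hb' => rw [(h3 a ha b hb).mul_pow, ha', hb', one_mul]
  | inv a _ ha => rw [inv_pow, ha, inv_one]

/-- If all the products `h ^ i * g ^ i` square to one and `(h * g⁻¹) ^ n = 1`, then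
`h ^ (4 * n) = 1`. -/
theorem pow_of_pairs {G : Type*} [Group G] (h g : G) (hP : ∀ i : ℕ, (h ^ i * g ^ i) ^ 2 = 1)
    (n : ℕ) (hn : (h * g⁻¹) ^ n = 1) : h ^ (4 * n) = 1 := by
  set u : G := h * g with hu
  have hu2 : u ^ 2 = 1 := by simpa using hP 1
  -- conjugates of `u` by powers of `h` commute with `u`
  have key : ∀ i : ℕ, Commute (h ^ i * u * (h ^ i)⁻¹) u := by
    intro i
    rcases i with _ | i
    · simp
    set R : G := h * (h ^ i * g ^ i) * h⁻¹ with hR
    set x : G := h ^ (i + 1) * u * (h ^ (i + 1))⁻¹ with hx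
    have hx2 : x ^ 2 = 1 := by
      have : x ^ 2 = h ^ (i + 1) * u ^ 2 * (h ^ (i + 1))⁻¹ := by
        rw [hx, pow_two, pow_two]; group
      rw [this, hu2]; group
    have hR2 : R ^ 2 = 1 := by
      have : R ^ 2 = h * (h ^ i * g ^ i) ^ 2 * h⁻¹ := by
        rw [hR, pow_two, pow_two]; group
      rw [this, hP i]; group
    have hRu : R * u = h ^ (i + 1) * g ^ (i + 1) := by
      rw [hR, hu, pow_succ' h i, pow_succ g i]; group
    have hxR : x * R = h * (h ^ (i + 1) * g ^ (i + 1)) * h⁻¹ := by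
      have e1 : h ^ (i + 1) = h ^ i * h := pow_succ h i
      have e2 : h ^ (i + 1) = h * h ^ i := pow_succ' h i
      have e3 : g ^ (i + 1) = g * g ^ i := pow_succ' g i
      have e4 : (h ^ (i + 1))⁻¹ * R = g ^ i * h⁻¹ := by
        rw [hR, e2]; group
      calc x * R = h ^ (i + 1) * u * ((h ^ (i + 1))⁻¹ * R) := by rw [hx]; group
        _ = h ^ (i + 1) * u * (g ^ i * h⁻¹) := by rw [e4]
        _ = h * (h ^ i * (h * g) * g ^ i) * h⁻¹ := by rw [e2, hu]; group
        _ = h * (h ^ (i + 1) * g ^ (i + 1)) * h⁻¹ := by rw [e1, e3]; group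
    have hxR2 : (x * R) ^ 2 = 1 := by
      rw [hxR]
      have : (h * (h ^ (i + 1) * g ^ (i + 1)) * h⁻¹) ^ 2
          = h * (h ^ (i + 1) * g ^ (i + 1)) ^ 2 * h⁻¹ := by
        rw [pow_two, pow_two]; group
      rw [this, hP (i + 1)]; group
    have hRu2 : (R * u) ^ 2 = 1 := by rw [hRu]; exact hP (i + 1)
    have c1 : Commute x R := commute_of_sq hx2 hR2 hxR2
    have c2 : Commute R u := commute_of_sq hR2 hu2 hRu2
    have hxRu : x * R * u = h ^ (i + 2) * g ^ (i + 2) := by
      rw [mul_assoc, hRu, hx, hu]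
      have e1 : h ^ (i + 2) = h ^ (i + 1) * h := pow_succ h (i + 1)
      have e2 : g ^ (i + 2) = g * g ^ (i + 1) := pow_succ' g (i + 1)
      rw [e1, e2]; group
    have h3 : (x * R * u) ^ 2 = 1 := by rw [hxRu]; exact hP (i + 2)
    apply commute_of_sq hx2 hu2
    have e : x * R * u = R * (x * u) := by rw [c1.eq, mul_assoc]
    have c3 : Commute R (x * u) := c1.symm.mul_right c2
    rw [e, c3.mul_pow, hR2, one_mul] at h3
    exact h3
  have keyz : ∀ i : ℤ, Commute (h ^ i * u * (h ^ i)⁻¹) u := by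
    intro i
    rcases Int.eq_nat_or_neg i with ⟨k, rfl | rfl⟩
    · simpa using key k
    · have := commute_conj (h ^ k)⁻¹ (key k)
      have e : (h ^ k)⁻¹ * (h ^ k * u * (h ^ k)⁻¹) * ((h ^ k)⁻¹)⁻¹ = u := by group
      rw [e] at this
      simpa using this.symm
  set T : Set G := {x | ∃ i : ℤ, x = h ^ i * u * (h ^ i)⁻¹} with hTdef
  have hT : ∀ x ∈ T, ∀ y ∈ T, Commute x y := by
    rintro x ⟨i, rfl⟩ y ⟨j, rfl⟩
    have := commute_conj (h ^ j) (keyz (i - j))
    have e : h ^ j * (h ^ (i - j) * u * (h ^ (i - j))⁻¹) * (h ^ j)⁻¹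
        = h ^ i * u * (h ^ i)⁻¹ := by group
    rwa [e] at this
  have hT2 : ∀ x ∈ T, x ^ 2 = 1 := by
    rintro x ⟨i, rfl⟩
    have : (h ^ i * u * (h ^ i)⁻¹) ^ 2 = h ^ i * u ^ 2 * (h ^ i)⁻¹ := by
      rw [pow_two, pow_two]; group
    rw [this, hu2]; group
  have hU := closure_sq_one T hT hT2
  -- invariance under conjugation by `h ^ 2`
  have hinv : ∀ x ∈ closure T, (h ^ 2)⁻¹ * x * h ^ 2 ∈ closure T := by
    intro x hx
    induction hx using closure_induction with
    | mem x hx =>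
      obtain ⟨i, rfl⟩ := hx
      apply Subgroup.subset_closure
      refine ⟨i - 2, ?_⟩
      group
    | one => simp
    | mul a b _ _ ha hb =>
      have e : (h ^ 2)⁻¹ * (a * b) * h ^ 2
          = ((h ^ 2)⁻¹ * a * h ^ 2) * ((h ^ 2)⁻¹ * b * h ^ 2) := by group
      rw [e]; exact mul_mem ha hb
    | inv a _ ha =>
      have e : (h ^ 2)⁻¹ * a⁻¹ * h ^ 2 = ((h ^ 2)⁻¹ * a * h ^ 2)⁻¹ := by group
      rw [e]; exact inv_mem ha
  have huinv : u⁻¹ = u := inv_of_sq hu2
  have hv : h * g⁻¹ = h ^ 2 * (h⁻¹ * u * h) := by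
    have e1 : g⁻¹ = u * h := by
      have : g = h⁻¹ * u := by rw [hu]; group
      rw [this, mul_inv_rev, inv_inv, huinv]
    rw [e1]; group
  have hu1 : h⁻¹ * u * h ∈ closure T := by
    apply Subgroup.subset_closure
    exact ⟨-1, by group⟩
  have hk : ∀ k : ℕ, (h ^ (2 * k))⁻¹ * (h * g⁻¹) ^ k ∈ closure T := by
    intro k
    induction k with
    | zero => simp
    | succ k ih =>
      have e : (h ^ (2 * (k + 1)))⁻¹ * (h * g⁻¹) ^ (k + 1)
          = ((h ^ 2)⁻¹ * ((h ^ (2 * k))⁻¹ * (h * g⁻¹) ^ k) * h ^ 2) * (h⁻¹ * u * h) := by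
        rw [pow_succ (h * g⁻¹) k, mul_add, mul_one, pow_add h (2 * k) 2, mul_inv_rev]
        nth_rewrite 2 [hv]
        group
      rw [e]
      exact mul_mem (hinv _ ih) hu1
  have hfin := hU _ (hk n)
  rw [hn, mul_one] at hfin
  have : (h ^ (4 * n))⁻¹ = 1 := by
    rw [← hfin, inv_pow, ← pow_mul]
    congr 2
    ring
  simpa using this

end Pool.Agent.Lib.MP_afab79_al
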