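import Pool.Agent.Lib.MP_afab79_al.Alg

/-!
# Two-generator nilpotent groups with a generator-inverting map

If `φ` inverts the generators `s, t` of a nilpotent group and all `w * φ w` square to one, then
the conjugates of `c = s t s⁻¹ t⁻¹` commute with each other.
-/

namespace Pool.Agent.Lib.MP_afab79_al

open Subgroup

/-- `Commute c (h⁻¹ c h)`. -/
def CC {G : Type*} [Group G] (c h : G) : Prop := Commute c (h⁻¹ * c * h)

theorem CC_conj {G : Type*} [Group G] {c g h : G} (H : CC c (h * g⁻¹)) :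
    Commute (g⁻¹ * c * g) (h⁻¹ * c * h) := by
  have := commute_conj g⁻¹ H
  have e1 : g⁻¹ * c * g⁻¹⁻¹ = g⁻¹ * c * g := by group
  have e2 : g⁻¹ * ((h * g⁻¹)⁻¹ * c * (h * g⁻¹)) * g⁻¹⁻¹ = h⁻¹ * c * h := by group
  rwa [e1, e2] at this

theorem CC_symm_aux {G : Type*} [Group G] {c g h : G} (H : Commute (g⁻¹ * c * g) (h⁻¹ * c * h)) :
    CC c (h * g⁻¹) := by
  have := commute_conj g H
  have e1 : g * (g⁻¹ * c * g) * g⁻¹ = c := by group
  have e2 : g * (h⁻¹ * c * h) * g⁻¹ = (h * g⁻¹)⁻¹ * c * (h * g⁻¹) := by group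
  rwa [e1, e2] at this

/-- In `G ⧸ normalClosure {c}` every element is `s̄ ^ k t̄ ^ l`. -/
theorem exists_F {G : Type*} [Group G] (s t : G) (hgen : closure {s, t} = ⊤) (D : Subgroup G)
    [D.Normal] (hc : s * t * s⁻¹ * t⁻¹ ∈ D) :
    ∃ F : ℤ → ℤ → G ⧸ D,
      (∀ k l k' l', F k l * F k' l' = F (k + k') (l + l')) ∧
      (∀ k l, (F k l)⁻¹ = F (-k) (-l)) ∧
      (∀ k : ℤ, ((s ^ k : G) : G ⧸ D) = F k 0) ∧
      (∀ l : ℤ, ((t ^ l : G) : G ⧸ D) = F 0 l) ∧
      F 0 0 = 1 ∧
      (∀ g : G, ∃ k l, (g : G ⧸ D) = F k l) := by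
  have hcomm : Commute (s : G ⧸ D) (t : G ⧸ D) := by
    have h1 : ((s * t * s⁻¹ * t⁻¹ : G) : G ⧸ D) = 1 := (QuotientGroup.eq_one_iff _).2 hc
    simp only [QuotientGroup.mk_mul, QuotientGroup.mk_inv] at h1
    show (s : G ⧸ D) * t = t * s
    have h2 : (s : G ⧸ D) * t * (s : G ⧸ D)⁻¹ = t := by
      have := mul_inv_eq_one.mp h1
      exact this
    exact mul_inv_eq_iff_eq_mul.mp h2
  refine ⟨fun k l => (s : G ⧸ D) ^ k * (t : G ⧸ D) ^ l, ?_, ?_, ?_, ?_, ?_, ?_⟩
  · intro k l k' l'
    have := (hcomm.zpow_zpow k' l).eq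
    show (s : G ⧸ D) ^ k * (t : G ⧸ D) ^ l * ((s : G ⧸ D) ^ k' * (t : G ⧸ D) ^ l')
      = (s : G ⧸ D) ^ (k + k') * (t : G ⧸ D) ^ (l + l')
    rw [zpow_add, zpow_add]
    calc (s : G ⧸ D) ^ k * (t : G ⧸ D) ^ l * ((s : G ⧸ D) ^ k' * (t : G ⧸ D) ^ l')
        = (s : G ⧸ D) ^ k * ((t : G ⧸ D) ^ l * (s : G ⧸ D) ^ k') * (t : G ⧸ D) ^ l' := by group
      _ = (s : G ⧸ D) ^ k * ((s : G ⧸ D) ^ k' * (t : G ⧸ D) ^ l) * (t : G ⧸ D) ^ l' := by rw [this]
      _ = _ := by group
  · intro k l
    have := (hcomm.zpow_zpow (-k) (-l)).eq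
    show ((s : G ⧸ D) ^ k * (t : G ⧸ D) ^ l)⁻¹ = (s : G ⧸ D) ^ (-k) * (t : G ⧸ D) ^ (-l)
    rw [this, mul_inv_rev, zpow_neg, zpow_neg]
  · intro k; simp
  · intro l; simp
  · simp
  · intro g
    have hg : g ∈ closure {s, t} := by rw [hgen]; trivial
    induction hg using closure_induction with
    | mem x hx =>
      rcases hx with rfl | hx
      · exact ⟨1, 0, by simp⟩
      · rw [Set.mem_singleton_iff] at hx
        subst hx
        exact ⟨0, 1, by simp⟩
    | one => exact ⟨0, 0, by simp⟩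
    | mul a b _ _ ha hb =>
      obtain ⟨k, l, h1⟩ := ha
      obtain ⟨k', l', h2⟩ := hb
      refine ⟨k + k', l + l', ?_⟩
      rw [QuotientGroup.mk_mul, h1, h2]
      have := (hcomm.zpow_zpow k' l).eq
      show (s : G ⧸ D) ^ k * (t : G ⧸ D) ^ l * ((s : G ⧸ D) ^ k' * (t : G ⧸ D) ^ l')
        = (s : G ⧸ D) ^ (k + k') * (t : G ⧸ D) ^ (l + l')
      rw [zpow_add, zpow_add]
      calc (s : G ⧸ D) ^ k * (t : G ⧸ D) ^ l * ((s : G ⧸ D) ^ k' * (t : G ⧸ D) ^ l')
          = (s : G ⧸ D) ^ k * ((t : G ⧸ D) ^ l * (s : G ⧸ D) ^ k') * (t : G ⧸ D) ^ l' := by group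
        _ = (s : G ⧸ D) ^ k * ((s : G ⧸ D) ^ k' * (t : G ⧸ D) ^ l) * (t : G ⧸ D) ^ l' := by
            rw [this]
        _ = _ := by group
    | inv a _ ha =>
      obtain ⟨k, l, h1⟩ := ha
      refine ⟨-k, -l, ?_⟩
      rw [QuotientGroup.mk_inv, h1]
      have := (hcomm.zpow_zpow (-k) (-l)).eq
      show ((s : G ⧸ D) ^ k * (t : G ⧸ D) ^ l)⁻¹ = (s : G ⧸ D) ^ (-k) * (t : G ⧸ D) ^ (-l)
      rw [this, mul_inv_rev, zpow_neg, zpow_neg]

/-- The inductive step: commutation modulo the centre implies commutation. -/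
theorem step {G : Type*} [Group G] (φ : G →* G) (s t : G) (hgen : closure {s, t} = ⊤)
    (hs : φ s = s⁻¹) (ht : φ t = t⁻¹) (hw : ∀ w, (w * φ w) ^ 2 = 1)
    (hφ2 : ∀ w, φ (φ w) = w)
    (hZ : ∀ g h : G, ∀ c, c = s * t * s⁻¹ * t⁻¹ →
      (g⁻¹ * c * g)⁻¹ * (h⁻¹ * c * h)⁻¹ * (g⁻¹ * c * g) * (h⁻¹ * c * h) ∈ center G) :
    ∀ h : G, CC (s * t * s⁻¹ * t⁻¹) h := by
  set c : G := s * t * s⁻¹ * t⁻¹ with hc
  set D : Subgroup G := normalClosure {c} with hD
  have hcD : c ∈ D := subset_normalClosure rfl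
  obtain ⟨F, hFm, hFi, hFs, hFt, hF1, hFe⟩ := exists_F s t hgen D hcD
  have hφc : φ c = (t * s)⁻¹ * c * (t * s) := by
    rw [hc]
    simp only [map_mul, map_inv, hs, ht]
    group
  have hc2 : c ^ 2 = 1 := by
    have := hw (s * t)
    simp only [map_mul, hs, ht] at this
    rw [hc]
    convert this using 2
    group
  have hconj2 : ∀ g : G, (g⁻¹ * c * g) ^ 2 = 1 := by
    intro g
    have : (g⁻¹ * c * g) ^ 2 = g⁻¹ * c ^ 2 * g := by rw [pow_two, pow_two]; group
    rw [this, hc2]; group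
  -- commutators of conjugates of `c` with elements of `D` are central
  have hDZ : ∀ d ∈ D, ∀ g : G, (g⁻¹ * c * g)⁻¹ * d⁻¹ * (g⁻¹ * c * g) * d ∈ center G := by
    intro d hd g
    set x : G := g⁻¹ * c * g with hx
    have hd' : d ∈ closure (Group.conjugatesOfSet {c}) := hd
    have conv : ∀ d : G, x⁻¹ * d⁻¹ * x * d ∈ center G ↔
        Commute (x : G ⧸ center G) (d : G ⧸ center G) := by
      intro d
      rw [← QuotientGroup.eq_one_iff]
      simp only [QuotientGroup.mk_mul, QuotientGroup.mk_inv]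
      constructor
      · intro h
        show (x : G ⧸ center G) * d = d * x
        have h3 : ((x : G ⧸ center G))⁻¹ * (d : G ⧸ center G)⁻¹ = (d : G ⧸ center G)⁻¹ * (x : G ⧸ center G)⁻¹ := by
          rw [mul_assoc] at h
          have := eq_inv_of_mul_eq_one_left h
          rw [this, mul_inv_rev]
        have h4 := congrArg (fun y => y⁻¹) h3
        simp only [mul_inv_rev, inv_inv] at h4
        exact h4.symm
      · intro h
        have := h.eq
        calc ((x : G ⧸ center G))⁻¹ * (d : G ⧸ center G)⁻¹ * x * d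
            = ((x : G ⧸ center G))⁻¹ * (d : G ⧸ center G)⁻¹ * (x * d) := by group
          _ = ((x : G ⧸ center G))⁻¹ * (d : G ⧸ center G)⁻¹ * (d * x) := by rw [this]
          _ = 1 := by group
    rw [conv]
    clear hd
    induction hd' using closure_induction with
    | mem y hy =>
      rw [← conv]
      rw [Group.mem_conjugatesOfSet_iff] at hy
      obtain ⟨a, ha, hay⟩ := hy
      rw [Set.mem_singleton_iff] at ha
      subst ha
      obtain ⟨k, rfl⟩ := isConj_iff.mp hay
      have := hZ g k⁻¹ c rfl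
      rw [inv_inv] at this
      exact this
    | one => exact Commute.one_right _
    | mul a b _ _ ha hb =>
      rw [QuotientGroup.mk_mul]
      exact ha.mul_right hb
    | inv a _ ha =>
      rw [QuotientGroup.mk_inv]
      exact ha.inv_right
  -- `CC c h` depends only on the class of `h` modulo `D`
  have hmod : ∀ h h' : G, (h : G ⧸ D) = (h' : G ⧸ D) → CC c h → CC c h' := by
    intro h h' e H
    have hd : h⁻¹ * h' ∈ D := QuotientGroup.eq.mp e
    set d : G := h⁻¹ * h' with hdd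
    have hh' : h' = h * d := by rw [hdd]; group
    have hz := hDZ d hd h
    set ζ : G := (h⁻¹ * c * h)⁻¹ * d⁻¹ * (h⁻¹ * c * h) * d with hζ
    have e1 : h'⁻¹ * c * h' = (h⁻¹ * c * h) * ζ := by
      rw [hh', hζ]; group
    unfold CC
    rw [e1]
    refine H.mul_right ?_
    exact (mem_center_iff.mp hz c)
  -- Relation A
  have relA : ∀ z, φ z = z⁻¹ → CC c (t * s * z⁻¹) := by
    intro z hz
    unfold CC
    refine commute_of_sq hc2 (hconj2 _) ?_
    have := hw (c * z)
    rw [map_mul, hφc, hz] at this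
    convert this using 2
    group
  -- Relation B
  have relB : ∀ v, CC c v⁻¹ →
      Commute ((t * s * (v * (s * t) * (φ v)⁻¹)⁻¹)⁻¹ * c * (t * s * (v * (s * t) * (φ v)⁻¹)⁻¹))
        (v⁻¹⁻¹ * c * v⁻¹) →
      CC c (t * s * (v * (s * t) * (φ v)⁻¹)⁻¹) := by
    intro v h1 h2
    set z : G := v * (s * t) * (φ v)⁻¹ with hz
    set y : G := (t * s * z⁻¹)⁻¹ * c * (t * s * z⁻¹) with hy
    set r : G := v⁻¹⁻¹ * c * v⁻¹ with hr
    have hφz : φ z = φ v * (s⁻¹ * t⁻¹) * v⁻¹ := by
      rw [hz]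
      simp only [map_mul, map_inv, hs, ht, hφ2]
    have e : c * z * φ (c * z) = c * y * r := by
      rw [map_mul, hφc, hφz, hy, hr, hc, hz]; group
    have h3 : (c * y * r) ^ 2 = 1 := by rw [← e]; exact hw (c * z)
    have hc1 : Commute c r := h1
    have hyr : Commute y r := h2
    have h4 : Commute (c * y) r := hc1.mul_left hyr
    rw [h4.mul_pow, hconj2 v⁻¹, mul_one] at h3
    exact commute_of_sq hc2 (hconj2 _) h3
  have hmk1 : ∀ i : ℤ, φ (s ^ i) = s ^ (-i) := by
    intro i; rw [map_zpow, hs, inv_zpow, zpow_neg]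
  have hmk2 : ∀ i : ℤ, φ (t ^ i) = t ^ (-i) := by
    intro i; rw [map_zpow, ht, inv_zpow, zpow_neg]
  have hFs1 : ((s : G) : G ⧸ D) = F 1 0 := by simpa using hFs 1
  have hFt1 : ((t : G) : G ⧸ D) = F 0 1 := by simpa using hFt 1
  have main : ∀ n : ℕ, ∀ k l : ℤ, k.natAbs + l.natAbs = n → ∀ h : G, (h : G ⧸ D) = F k l →
      CC c h := by
    intro n
    induction n using Nat.strong_induction_on with
    | _ n ih =>
    intro k l hkl h hh
    rcases Int.even_or_odd' k with ⟨i, hi | hi⟩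
    · rcases Int.even_or_odd' l with ⟨j, hj | hj⟩
      · -- both even
        by_cases h0 : i = 0 ∧ j = 0
        · obtain ⟨rfl, rfl⟩ := h0
          have e1 : (h : G ⧸ D) = ((1 : G) : G ⧸ D) := by
            rw [hh, hi, hj, mul_zero, hF1, QuotientGroup.mk_one]
          refine hmod 1 h e1.symm ?_
          unfold CC
          simp
        · have hlt : i.natAbs + j.natAbs < n := by omega
          have key := ih _ hlt i j rfl
          set v : G := (s ^ i * t ^ j)⁻¹ with hv
          have hφv : φ v = t ^ j * s ^ i := by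
            rw [hv, map_inv, map_mul, hmk1, hmk2]; group
          have hcls : ((t * s * (v * (s * t) * (φ v)⁻¹)⁻¹ : G) : G ⧸ D) = F k l := by
            rw [hφv, hv]
            simp only [QuotientGroup.mk_mul, QuotientGroup.mk_inv, hFs, hFt, hFs1, hFt1, hFm, hFi]
            congr 1 <;> omega
          have hb1 : CC c v⁻¹ := by
            apply key
            rw [hv, inv_inv]
            simp only [QuotientGroup.mk_mul, hFs, hFt, hFm]
            simp
          have hb2 : Commute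
              ((t * s * (v * (s * t) * (φ v)⁻¹)⁻¹)⁻¹ * c * (t * s * (v * (s * t) * (φ v)⁻¹)⁻¹))
              (v⁻¹⁻¹ * c * v⁻¹) := by
            apply Commute.symm
            apply CC_conj
            apply key
            rw [inv_inv, QuotientGroup.mk_mul, hcls, hv]
            simp only [QuotientGroup.mk_mul, QuotientGroup.mk_inv, hFs, hFt, hFm, hFi]
            congr 1 <;> omega
          have := relB v hb1 hb2
          exact hmod _ h (by rw [hcls, hh]) this
      · -- `l` odd
        set z : G := (t ^ j * s ^ (k - 1) * t ^ j)⁻¹ with hz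
        have hφz : φ z = z⁻¹ := by
          rw [hz, map_inv, map_mul, map_mul, hmk1, hmk2]; group
        have := relA z hφz
        refine hmod _ h ?_ this
        rw [hh, hz, inv_inv]
        simp only [QuotientGroup.mk_mul, hFs, hFt, hFs1, hFt1, hFm]
        congr 1 <;> omega
    · -- `k` odd
      set z : G := (s ^ i * t ^ (l - 1) * s ^ i)⁻¹ with hz
      have hφz : φ z = z⁻¹ := by
        rw [hz, map_inv, map_mul, map_mul, hmk1, hmk2]; group
      have := relA z hφz
      refine hmod _ h ?_ this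
      rw [hh, hz, inv_inv]
      simp only [QuotientGroup.mk_mul, hFs, hFt, hFs1, hFt1, hFm]
      congr 1 <;> omega
  intro h
  obtain ⟨k, l, hkl⟩ := hFe h
  exact main _ k l rfl h hkl

/-- In a nilpotent group generated by `s, t` with a map `φ` inverting `s, t` such that all
`w * φ w` square to one, the conjugates of `s t s⁻¹ t⁻¹` commute. -/
theorem conj_commute (G : Type*) [Group G] [Group.IsNilpotent G] :
    ∀ (φ : G →* G) (s t : G), closure {s, t} = ⊤ → φ s = s⁻¹ → φ t = t⁻¹ →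
      (∀ w, (w * φ w) ^ 2 = 1) → ∀ h : G, CC (s * t * s⁻¹ * t⁻¹) h := by
  refine Group.nilpotent_center_quotient_ind (P := fun G _ _ =>
    ∀ (φ : G →* G) (s t : G), closure {s, t} = ⊤ → φ s = s⁻¹ → φ t = t⁻¹ →
      (∀ w, (w * φ w) ^ 2 = 1) → ∀ h : G, CC (s * t * s⁻¹ * t⁻¹) h) G ?_ ?_
  · intro G _ _ φ s t _ _ _ _ h
    unfold CC
    show _ = _
    exact Subsingleton.elim _ _
  · intro G _ _ ih φ s t hgen hs ht hw
    have hφ2 : ∀ w, φ (φ w) = w := by
      have : φ.comp φ = MonoidHom.id G := by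
        apply MonoidHom.eq_of_eqOn_dense hgen
        intro x hx
        rcases hx with rfl | hx
        · simp [hs]
        · rw [Set.mem_singleton_iff] at hx
          subst hx
          simp [ht]
      intro w
      exact DFunLike.congr_fun this w
    have hcen : center G ≤ (center G).comap φ := by
      intro z hz
      rw [mem_comap, mem_center_iff]
      intro g
      have := mem_center_iff.mp hz (φ g)
      have h2 := congrArg φ this
      rw [map_mul, map_mul, hφ2] at h2
      exact h2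
    have ih' := ih (QuotientGroup.map (center G) (center G) φ hcen) (s : G ⧸ center G) t ?_ ?_ ?_ ?_
    · apply step φ s t hgen hs ht hw hφ2
      intro g h c hc
      have h1 := ih' ((h : G ⧸ center G) * (g : G ⧸ center G)⁻¹)
      have h2 := CC_conj h1
      rw [← QuotientGroup.eq_one_iff]
      subst hc
      simp only [QuotientGroup.mk_mul, QuotientGroup.mk_inv]
      have h3 := h2.eq
      generalize ((g : G ⧸ center G))⁻¹ * ((s : G ⧸ center G) * t * (s : G ⧸ center G)⁻¹ *
        (t : G ⧸ center G)⁻¹) * g = x at h3 ⊢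
      generalize ((h : G ⧸ center G))⁻¹ * ((s : G ⧸ center G) * t * (s : G ⧸ center G)⁻¹ *
        (t : G ⧸ center G)⁻¹) * h = y at h3 ⊢
      calc x⁻¹ * y⁻¹ * x * y = x⁻¹ * y⁻¹ * (x * y) := by group
        _ = x⁻¹ * y⁻¹ * (y * x) := by rw [h3]
        _ = 1 := by group
    · have h1 := congrArg (Subgroup.map (QuotientGroup.mk' (center G))) hgen
      rw [MonoidHom.map_closure] at h1
      rw [Subgroup.map_top_of_surjective _ (QuotientGroup.mk'_surjective _)] at h1
      rw [← h1]
      congr 1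
      rw [Set.image_insert_eq, Set.image_singleton]
      rfl
    · rw [QuotientGroup.map_mk, hs]; rfl
    · rw [QuotientGroup.map_mk, ht]; rfl
    · intro w
      induction w using QuotientGroup.induction_on with
      | H w =>
        rw [QuotientGroup.map_mk]
        have := congrArg (fun x : G => (x : G ⧸ center G)) (hw w)
        simpa using this

/-- Power form. -/
theorem alg_pow {G : Type*} [Group G] [Group.IsNilpotent G] (φ : G →* G) (s t : G)
    (hgen : closure {s, t} = ⊤) (hs : φ s = s⁻¹) (ht : φ t = t⁻¹)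
    (hw : ∀ w, (w * φ w) ^ 2 = 1) (m : ℕ) (htm : t ^ m = 1) (hstm : (s * t * s) ^ m = 1) :
    s ^ (4 * m) = 1 := by
  have hCC := conj_commute G φ s t hgen hs ht hw
  set c : G := s * t * s⁻¹ * t⁻¹ with hc
  set D : Subgroup G := normalClosure {c} with hD
  have hcD : c ∈ D := subset_normalClosure rfl
  have hc2 : c ^ 2 = 1 := by
    have := hw (s * t)
    simp only [map_mul, hs, ht] at this
    rw [hc]
    convert this using 2
    group
  obtain ⟨F, hFm, hFi, hFs, hFt, hF1, hFe⟩ := exists_F s t hgen D hcD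
  have hFpow : ∀ (k l : ℤ) (n : ℕ), F k l ^ n = F (n * k) (n * l) := by
    intro k l n
    induction n with
    | zero => simp [hF1]
    | succ n ih =>
      rw [pow_succ, ih, hFm]
      push_cast
      congr 1 <;> ring
  have h1 : ((s ^ (2 * m) : G) : G ⧸ D) = 1 := by
    have e1 : ((s * t * s : G) : G ⧸ D) = F 2 1 := by
      have hFs1 : ((s : G) : G ⧸ D) = F 1 0 := by simpa using hFs 1
      have hFt1 : ((t : G) : G ⧸ D) = F 0 1 := by simpa using hFt 1
      simp only [QuotientGroup.mk_mul, hFs1, hFt1, hFm]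
      norm_num
    have e2 : F (m * 2) (m * 1) = 1 := by
      rw [← hFpow, ← e1, ← QuotientGroup.mk_pow, hstm, QuotientGroup.mk_one]
    have e3 : F 0 m = 1 := by
      rw [← hFt, zpow_natCast, htm, QuotientGroup.mk_one]
    have e4 : ((s ^ (2 * m) : G) : G ⧸ D) = F (m * 2) 0 := by
      rw [← hFs]
      congr 1
      rw [← zpow_natCast]
      push_cast
      congr 1
      ring
    rw [e4]
    have e5 : F (m * 2) 0 * F 0 m = F (m * 2) (m * 1) := by
      rw [hFm]
      congr 1
    rw [e3, mul_one, e2] at e5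
    exact e5
  have h2' : s ^ (2 * m) ∈ D := (QuotientGroup.eq_one_iff _).1 h1
  have h2 : s ^ (2 * m) ∈ closure (Group.conjugatesOfSet {c}) := h2'
  have h3 := closure_sq_one (Group.conjugatesOfSet {c}) ?_ ?_ _ h2
  · rw [← pow_mul] at h3
    rw [← h3]
    congr 1
    ring
  · intro x hx y hy
    rw [Group.mem_conjugatesOfSet_iff] at hx hy
    obtain ⟨a, ha, hax⟩ := hx
    obtain ⟨b, hb, hby⟩ := hy
    rw [Set.mem_singleton_iff] at ha hb
    subst ha
    subst hb
    obtain ⟨k, rfl⟩ := isConj_iff.mp hax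
    obtain ⟨l, rfl⟩ := isConj_iff.mp hby
    have := CC_conj (c := c) (g := k⁻¹) (h := l⁻¹) (hCC _)
    rwa [inv_inv, inv_inv] at this
  · intro x hx
    rw [Group.mem_conjugatesOfSet_iff] at hx
    obtain ⟨a, ha, hax⟩ := hx
    rw [Set.mem_singleton_iff] at ha
    subst ha
    obtain ⟨k, rfl⟩ := isConj_iff.mp hax
    have : (k * c * k⁻¹) ^ 2 = k * c ^ 2 * k⁻¹ := by rw [pow_two, pow_two]; group
    rw [this, hc2]; group

/-- Version with conjugation by an element of an ambient nilpotent group. -/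
theorem alg_conj {Q : Type*} [Group Q] [Group.IsNilpotent Q] (a s t : Q)
    (hs : a⁻¹ * s * a = s⁻¹) (ht : a⁻¹ * t * a = t⁻¹)
    (hw : ∀ w ∈ closure {s, t}, (w * (a⁻¹ * w * a)) ^ 2 = 1) (m : ℕ)
    (htm : t ^ m = 1) (hstm : (s * t * s) ^ m = 1) : s ^ (4 * m) = 1 := by
  have hmaps : ∀ w ∈ closure {s, t}, a⁻¹ * w * a ∈ closure {s, t} := by
    intro w hw
    induction hw using closure_induction with
    | mem x hx =>
      rcases hx with rfl | hx
      · rw [hs]; exact inv_mem (Subgroup.subset_closure (by simp))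
      · rw [Set.mem_singleton_iff] at hx
        subst hx
        rw [ht]; exact inv_mem (Subgroup.subset_closure (by simp))
    | one => simp
    | mul x y _ _ hx hy =>
      have e : a⁻¹ * (x * y) * a = (a⁻¹ * x * a) * (a⁻¹ * y * a) := by group
      rw [e]; exact mul_mem hx hy
    | inv x _ hx =>
      have e : a⁻¹ * x⁻¹ * a = (a⁻¹ * x * a)⁻¹ := by group
      rw [e]; exact inv_mem hx
  let φ : closure {s, t} →* closure {s, t} :=
    MonoidHom.mk' (fun w => ⟨a⁻¹ * w.1 * a, hmaps w.1 w.2⟩) (by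
      intro x y
      apply Subtype.ext
      show a⁻¹ * (x.1 * y.1) * a = (a⁻¹ * x.1 * a) * (a⁻¹ * y.1 * a)
      group)
  have hsM : s ∈ closure {s, t} := Subgroup.subset_closure (by simp)
  have htM : t ∈ closure {s, t} := Subgroup.subset_closure (by simp)
  have hgen : closure {(⟨s, hsM⟩ : closure {s, t}), ⟨t, htM⟩} = ⊤ := by
    have := Subgroup.closure_closure_coe_preimage (k := ({s, t} : Set Q))
    rw [← this]
    congr 1
    ext x
    simp [Subtype.ext_iff]
  have := alg_pow φ ⟨s, hsM⟩ ⟨t, htM⟩ hgen (Subtype.ext hs) (Subtype.ext ht)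
    (fun w => Subtype.ext (hw w.1 w.2)) m (Subtype.ext htm) (Subtype.ext hstm)
  exact congrArg Subtype.val this

end Pool.Agent.Lib.MP_afab79_al
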