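import Pool.Agent.Lib.MP_afab79_al.Pair

/-!
# Torsion pro-2 groups with an open coset of exponent four
-/

namespace Pool.Agent.Lib.MP_afab79_al

open Subgroup

variable {G : Type*} [Group G] [TopologicalSpace G] [IsTopologicalGroup G] [CompactSpace G]
  [T2Space G] [TotallyDisconnectedSpace G]

/-- An element lying in all open normal subgroups is trivial. -/
theorem eq_one_of_forall_open (x : G)
    (hx : ∀ L : OpenNormalSubgroup G, x ∈ L.toSubgroup) : x = 1 := by
  by_contra hne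
  have hU : IsOpen ({x}ᶜ : Set G) := isOpen_compl_singleton
  have h1 : (1 : G) ∈ ({x}ᶜ : Set G) := by
    simp only [Set.mem_compl_iff, Set.mem_singleton_iff]
    exact fun h => hne h.symm
  obtain ⟨L, hL⟩ := ProfiniteGrp.exist_openNormalSubgroup_sub_open_nhds_of_one hU h1
  have := hL (hx L)
  simp at this

theorem sq_of_four {a h : G} (h4 : (a * h) ^ 4 = 1) (ha : a ^ 4 = 1) (hc : Commute h (a ^ 2)) :
    (h * (a⁻¹ * h * a)) ^ 2 = 1 := by
  have h1 : h * a ^ 2 = a ^ 2 * h := hc.eq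
  have e1 : (a * h) ^ 2 = a ^ 2 * ((a⁻¹ * h * a) * h) := by
    rw [pow_two, pow_two]; group
  have c1 : (a⁻¹ * h * a) * a ^ 2 = a ^ 2 * (a⁻¹ * h * a) := by
    have : (a⁻¹ * h * a) * a ^ 2 = a⁻¹ * (h * a ^ 2) * a := by
      rw [pow_two]; group
    rw [this, h1, pow_two]; group
  have c2 : ((a⁻¹ * h * a) * h) * a ^ 2 = a ^ 2 * ((a⁻¹ * h * a) * h) := by
    rw [mul_assoc, h1, ← mul_assoc, c1, mul_assoc]
  have e2 : (a * h) ^ 4 = ((a⁻¹ * h * a) * h) ^ 2 := by
    have : (a * h) ^ 4 = ((a * h) ^ 2) ^ 2 := by rw [← pow_mul]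
    rw [this, e1]
    have c3 : Commute (a ^ 2) ((a⁻¹ * h * a) * h) := c2.symm
    rw [c3.mul_pow, ← pow_mul, ha, one_mul]
  have e3 : (h * (a⁻¹ * h * a)) ^ 2 = h * ((a⁻¹ * h * a) * h) ^ 2 * h⁻¹ := by
    rw [pow_two, pow_two]; group
  rw [e3, ← e2, h4]; group

theorem main (htor : ∀ g : G, ∃ n : ℕ, 0 < n ∧ g ^ n = 1)
    (h2 : ∀ U : Subgroup G, U.Normal → IsOpen (U : Set G) → ∃ k : ℕ, U.index = 2 ^ k)
    (H : Subgroup G) (hH : IsOpen (H : Set G)) (a : G) (ha : ∀ h ∈ H, (a * h) ^ 4 = 1) :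
    ∃ n : ℕ, 0 < n ∧ ∀ g : G, Commute g (a ^ 2) → g ^ n = 1 := by
  have ha4 : a ^ 4 = 1 := by simpa using ha 1 (one_mem H)
  obtain ⟨N, hN⟩ := ProfiniteGrp.exist_openNormalSubgroup_sub_open_nhds_of_one hH (one_mem H)
  have haN : ∀ h ∈ N.toSubgroup, (a * h) ^ 4 = 1 := fun h hh => ha h (hN hh)
  -- the closed set of elements inverted by `a`
  set S : Set G := {s | s ∈ N.toSubgroup ∧ a⁻¹ * s * a = s⁻¹} with hS
  have hSc : IsClosed S := by
    have h1 : IsClosed ((N.toSubgroup : Subgroup G) : Set G) := by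
      exact Subgroup.isClosed_of_isOpen _ N.isOpen'
    have h2 : IsClosed {s : G | a⁻¹ * s * a = s⁻¹} :=
      isClosed_eq (by fun_prop) (by fun_prop)
    exact h1.inter h2
  have h1S : (1 : G) ∈ S := ⟨one_mem _, by simp⟩
  -- elements of `S` commute with `a ^ 2`
  have hSC : ∀ s ∈ S, Commute s (a ^ 2) := by
    rintro s ⟨-, hs⟩
    have h1 : a⁻¹ * s⁻¹ * a = s := by
      have : a⁻¹ * s⁻¹ * a = (a⁻¹ * s * a)⁻¹ := by group
      rw [this, hs, inv_inv]
    have h2 : (a ^ 2)⁻¹ * s * a ^ 2 = s := by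
      have : (a ^ 2)⁻¹ * s * a ^ 2 = a⁻¹ * (a⁻¹ * s * a) * a := by rw [pow_two]; group
      rw [this, hs, h1]
    show s * a ^ 2 = a ^ 2 * s
    calc s * a ^ 2 = a ^ 2 * ((a ^ 2)⁻¹ * s * a ^ 2) := by group
      _ = a ^ 2 * s := by rw [h2]
  -- Baire
  have hBaire : ∃ m : ℕ, 0 < m ∧ ∃ b ∈ S, ∃ K : OpenNormalSubgroup G,
      K.toSubgroup ≤ N.toSubgroup ∧ ∀ s ∈ S, b⁻¹ * s ∈ K.toSubgroup → s ^ m = 1 := by
    have : CompactSpace S := isCompact_iff_compactSpace.mp hSc.isCompact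
    have : Nonempty S := ⟨⟨1, h1S⟩⟩
    have hcl : ∀ n : ℕ, IsClosed {s : S | (s : G) ^ (n + 1) = 1} := by
      intro n
      exact isClosed_eq (by fun_prop) continuous_const
    have hun : (⋃ n : ℕ, {s : S | (s : G) ^ (n + 1) = 1}) = Set.univ := by
      rw [Set.eq_univ_iff_forall]
      intro s
      obtain ⟨n, hn, hsn⟩ := htor s
      rw [Set.mem_iUnion]
      refine ⟨n - 1, ?_⟩
      show (s : G) ^ (n - 1 + 1) = 1
      rw [Nat.sub_add_cancel hn]
      exact hsn
    obtain ⟨n, ⟨b, hb⟩⟩ := nonempty_interior_of_iUnion_of_closed hcl hun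
    rw [mem_interior] at hb
    obtain ⟨V, hVsub, hVo, hbV⟩ := hb
    obtain ⟨W, hWo, rfl⟩ := isOpen_induced_iff.mp hVo
    -- translate `W` to a neighbourhood of one
    have hW' : IsOpen ({x : G | (b : G) * x ∈ W} ∩ (N.toSubgroup : Set G)) := by
      refine IsOpen.inter ?_ N.isOpen'
      exact hWo.preimage (continuous_const_mul (b : G))
    have h1W : (1 : G) ∈ ({x : G | (b : G) * x ∈ W} ∩ (N.toSubgroup : Set G)) := by
      refine ⟨?_, one_mem _⟩
      show (b : G) * 1 ∈ W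
      rw [mul_one]; exact hbV
    obtain ⟨K, hK⟩ := ProfiniteGrp.exist_openNormalSubgroup_sub_open_nhds_of_one hW' h1W
    refine ⟨n + 1, Nat.succ_pos n, b, b.2, K, fun x hx => (hK hx).2, ?_⟩
    intro s hs hsK
    have h1 := (hK hsK).1
    have h2 : s ∈ W := by
      have : (b : G) * ((b : G)⁻¹ * s) = s := by group
      have h3 : (b : G) * ((b : G)⁻¹ * s) ∈ W := h1
      rwa [this] at h3
    exact hVsub (show (⟨s, hs⟩ : S) ∈ Subtype.val ⁻¹' W from h2)
  obtain ⟨m, hm, b, hb, K, hKN, hK⟩ := hBaire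
  have hKnormal : K.toSubgroup.Normal := K.isNormal'
  have hNnormal : N.toSubgroup.Normal := N.isNormal'
  have hbm : b ^ m = 1 := hK b hb (by simp)
  -- inverted elements of `K` have order dividing `4 * m`
  have hSK : ∀ s ∈ S, s ∈ K.toSubgroup → s ^ (4 * m) = 1 := by
    intro s hs hsK
    have hsbs : s * b * s ∈ S := by
      refine ⟨mul_mem (mul_mem hs.1 hb.1) hs.1, ?_⟩
      have : a⁻¹ * (s * b * s) * a = (a⁻¹ * s * a) * (a⁻¹ * b * a) * (a⁻¹ * s * a) := by group
      rw [this, hs.2, hb.2]; group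
    have hsbsm : (s * b * s) ^ m = 1 := by
      apply hK _ hsbs
      have : b⁻¹ * (s * b * s) = (b⁻¹ * s * b⁻¹⁻¹) * s := by group
      rw [this]
      exact mul_mem (hKnormal.conj_mem s hsK b⁻¹) hsK
    apply eq_one_of_forall_open
    intro L
    have hLnormal : L.toSubgroup.Normal := L.isNormal'
    have : Finite (G ⧸ L.toSubgroup) := Subgroup.quotient_finite_of_isOpen _ L.isOpen'
    have hpg : IsPGroup 2 (G ⧸ L.toSubgroup) := by
      obtain ⟨k, hk⟩ := h2 L.toSubgroup hLnormal L.isOpen'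
      apply IsPGroup.of_card (n := k)
      rw [← hk]
      rfl
    have : Fact (Nat.Prime 2) := ⟨Nat.prime_two⟩
    have : Group.IsNilpotent (G ⧸ L.toSubgroup) := hpg.isNilpotent
    have hmem : ∀ w ∈ Subgroup.closure {s, b}, w ∈ N.toSubgroup ∧ Commute w (a ^ 2) := by
      intro w hw
      have h1 : Subgroup.closure {s, b} ≤ N.toSubgroup ⊓ centralizer {a ^ 2} := by
        rw [closure_le]
        intro x hx
        have hx' : x ∈ S := by
          rcases hx with rfl | hx
          · exact hs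
          · rw [Set.mem_singleton_iff] at hx
            subst hx
            exact hb
        refine ⟨hx'.1, ?_⟩
        refine SetLike.mem_coe.mpr (mem_centralizer_iff.mpr ?_)
        intro y hy
        rw [Set.mem_singleton_iff] at hy
        subst hy
        exact (hSC x hx').symm.eq
      obtain ⟨h2, h3⟩ := h1 hw
      refine ⟨h2, ?_⟩
      have := mem_centralizer_iff.mp h3 (a ^ 2) rfl
      exact this.symm
    have key := alg_conj (Q := G ⧸ L.toSubgroup) (a : G ⧸ L.toSubgroup) s b ?_ ?_ ?_ m ?_ ?_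
    · rw [← QuotientGroup.mk_pow] at key
      exact (QuotientGroup.eq_one_iff _).1 key
    · have := congrArg (fun x : G => (x : G ⧸ L.toSubgroup)) hs.2
      simpa using this
    · have := congrArg (fun x : G => (x : G ⧸ L.toSubgroup)) hb.2
      simpa using this
    · intro w hw
      have h1 : Subgroup.closure {(s : G ⧸ L.toSubgroup), (b : G ⧸ L.toSubgroup)}
          = (Subgroup.closure {s, b}).map (QuotientGroup.mk' L.toSubgroup) := by
        rw [MonoidHom.map_closure]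
        congr 1
        rw [Set.image_insert_eq, Set.image_singleton]
        rfl
      rw [h1] at hw
      obtain ⟨x, hx, rfl⟩ := hw
      obtain ⟨hxN, hxc⟩ := hmem x hx
      have h2 := sq_of_four (haN x hxN) ha4 hxc
      have := congrArg (fun x : G => (x : G ⧸ L.toSubgroup)) h2
      simpa using this
    · have := congrArg (fun x : G => (x : G ⧸ L.toSubgroup)) hbm
      simpa using this
    · have := congrArg (fun x : G => (x : G ⧸ L.toSubgroup)) hsbsm
      simpa using this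
  -- conclusion
  have : Finite (G ⧸ K.toSubgroup) := Subgroup.quotient_finite_of_isOpen _ K.isOpen'
  have hidx : 0 < K.toSubgroup.index := Nat.pos_of_ne_zero Subgroup.index_ne_zero_of_finite
  refine ⟨K.toSubgroup.index * (16 * m), by positivity, ?_⟩
  intro g hg
  rw [pow_mul]
  set h : G := g ^ K.toSubgroup.index with hh
  have hhK : h ∈ K.toSubgroup := K.toSubgroup.pow_index_mem g
  have hhc : Commute h (a ^ 2) := hg.pow_left _
  have hmem : ∀ w ∈ K.toSubgroup, a⁻¹ * w * a ∈ K.toSubgroup := by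
    intro w hw
    have := hKnormal.conj_mem w hw a⁻¹
    rwa [inv_inv] at this
  have hP : ∀ i : ℕ, (h ^ i * (a⁻¹ * h * a) ^ i) ^ 2 = 1 := by
    intro i
    have e : (a⁻¹ * h * a) ^ i = a⁻¹ * h ^ i * a := by
      have := conj_pow (i := i) (a := a⁻¹) (b := h)
      rwa [inv_inv] at this
    rw [e]
    exact sq_of_four (haN _ (hKN (pow_mem hhK i))) ha4 (hhc.pow_left i)
  have hv : (h * (a⁻¹ * h * a)⁻¹) ^ (4 * m) = 1 := by
    apply hSK
    · refine ⟨hKN (mul_mem hhK (inv_mem (hmem h hhK))), ?_⟩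
      have h1 : (a ^ 2)⁻¹ * h * a ^ 2 = h := by
        have := hhc.eq
        calc (a ^ 2)⁻¹ * h * a ^ 2 = (a ^ 2)⁻¹ * (h * a ^ 2) := by group
          _ = (a ^ 2)⁻¹ * (a ^ 2 * h) := by rw [this]
          _ = h := by group
      have h3 : a⁻¹ * (h * (a⁻¹ * h * a)⁻¹) * a
          = (a⁻¹ * h * a) * ((a ^ 2)⁻¹ * h * a ^ 2)⁻¹ := by
        simp only [mul_inv_rev, inv_inv, pow_two, mul_assoc, mul_inv_cancel_left,
          inv_mul_cancel_left]
      rw [h3, h1, mul_inv_rev, inv_inv]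
    · exact mul_mem hhK (inv_mem (hmem h hhK))
  have := pow_of_pairs h (a⁻¹ * h * a) hP (4 * m) hv
  rw [← this]
  congr 1
  ring

end Pool.Agent.Lib.MP_afab79_al
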